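import Pool.Agent.S02332

set_option autoImplicit false

/-!
# An existentially closed subgroup of a free group that is not a free factor

In the free group of rank four with basis `b, e, p, q` the subgroup generated by
`a = p² q² e⁻³` and `b` is free of rank two and existentially closed, but it is not a free factor.
-/

namespace Pool.Agent.Results.MP_9442c3_al.Full

/-- The value of the word `w` (in the variables `0, ..., k - 1` with coefficients in `H`) at the
tuple `x`. -/
def value {F : Type} [Group F] {H : Subgroup F} {k : ℕ} (x : Fin k → F)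
    (w : Monoid.Coprod (FreeGroup (Fin k)) H) : F :=
  Monoid.Coprod.lift (FreeGroup.lift x) H.subtype w

/-- `H` is existentially closed in `F`: every finite system of equations `u = 1` and inequations
`v ≠ 1` with coefficients in `H` that has a solution in `F` has a solution with entries in `H`. -/
def ExistentiallyClosed {F : Type} [Group F] (H : Subgroup F) : Prop :=
  ∀ (k : ℕ) (U V : Set (Monoid.Coprod (FreeGroup (Fin k)) H)), U.Finite → V.Finite →
    (∃ x : Fin k → F, (∀ u ∈ U, value x u = 1) ∧ ∀ v ∈ V, value x v ≠ 1) →
      ∃ y : Fin k → F, (∀ i, y i ∈ H) ∧ (∀ u ∈ U, value y u = 1) ∧ ∀ v ∈ V, value y v ≠ 1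

/-- `H` is a free factor of `F`: for some subgroup `K` the natural homomorphism from the free
product `H * K` to `F` is an isomorphism. -/
def IsFreeFactor {F : Type} [Group F] (H : Subgroup F) : Prop :=
  ∃ K : Subgroup F, Function.Bijective (Monoid.Coprod.lift H.subtype K.subtype)

/-- The subgroup `⟨p² q² e⁻³, b⟩` of the free group with basis `b, e, p, q` (in this order). -/
def H : Subgroup (FreeGroup (Fin 4)) :=
  Subgroup.closure {FreeGroup.of 2 ^ 2 * FreeGroup.of 3 ^ 2 * (FreeGroup.of 1 ^ 3)⁻¹,
    FreeGroup.of 0}

open Pool.Agent.Helper36.EC Pool.Agent.S02332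

theorem range_iota : iota.range = HF := by
  apply le_antisymm
  · rintro _ ⟨w, rfl⟩
    exact iota_mem w
  · change Subgroup.closure _ ≤ _
    rw [Subgroup.closure_le]
    rintro z (rfl | rfl)
    · exact ⟨al, iota_al⟩
    · exact ⟨xx, iota_xx⟩

theorem ec : ExistentiallyClosed HF := by
  classical
  intro k U V hU hV hx
  obtain ⟨y, h1, h2⟩ := existentially_closed k hU.toFinset hV.toFinset (by
    obtain ⟨x, h1, h2⟩ := hx
    exact ⟨x, fun w hw => h1 w (hU.mem_toFinset.1 hw), fun v hv => h2 v (hV.mem_toFinset.1 hv)⟩)
  have key : ∀ w : Monoid.Coprod (FreeGroup (Fin k)) HF,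
      value (fun i => (y i : F4)) w =
        (Monoid.Coprod.lift (FreeGroup.lift y) (MonoidHom.id HF) w : F4) := by
    intro w
    have h : Monoid.Coprod.lift (FreeGroup.lift (fun i => (y i : F4))) HF.subtype =
        HF.subtype.comp (Monoid.Coprod.lift (FreeGroup.lift y) (MonoidHom.id HF)) := by
      apply Monoid.Coprod.hom_ext
      · apply FreeGroup.ext_hom
        intro i
        simp
      · ext1 z
        simp
    exact DFunLike.congr_fun h w
  refine ⟨fun i => y i, fun i => (y i).2, fun u hu => ?_, fun v hv h => ?_⟩
  · rw [key, h1 u (hU.mem_toFinset.2 hu)]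
    rfl
  · rw [key] at h
    exact h2 v (hV.mem_toFinset.2 hv) (Subtype.ext h)

/-- The subgroup `H` of the free group of rank four is free of rank two and existentially closed,
but it is not a free factor. -/
theorem result : Nonempty (H ≃* FreeGroup (Fin 2)) ∧ ExistentiallyClosed H ∧
    ¬ IsFreeFactor H := by
  change Nonempty (HF ≃* FreeGroup (Fin 2)) ∧ ExistentiallyClosed HF ∧ ¬ IsFreeFactor HF
  refine ⟨⟨?_⟩, ec, fun ⟨K, hK⟩ => not_free_factor K hK⟩
  have hinj : Function.Injective iota := fun u v h => by
    rw [← psi_iota u, h, psi_iota v]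
  exact ((MonoidHom.ofInjective hinj).trans (MulEquiv.subgroupCongr range_iota)).symm

end Pool.Agent.Results.MP_9442c3_al.Full
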